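import Pool.Agent.H95.Bsd.Main

/-!
# The conjecture of Birch and Swinnerton-Dyer over function fields and Artin–Schreier coverings

For a smooth projective variety `X` over a finite field let `δ(X)` be the Laurent polynomial whose
coefficient at `c` is the order of the pole of the zeta function at `s = c` minus the rank of the group
of the algebraic cycles of codimension `c` modulo homological equivalence. It extends to an additive
invariant of all separated schemes of finite type over `𝔽_p` (Gillet and Soulé, Bondarko: the class of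
the motive with compact supports in the Grothendieck group of the Chow motives with rational
coefficients). It is zero for points and curves, and for a surface `V` it has only one coefficient,
`- ord_{s=1} ζ(V, s) - rank NS(V)`. If `V → C` is a fibration over a curve and `J` is the Jacobian of its
generic fibre, then this is `ord_{s=1} L(s, J) - rank J(K)`, `K = k(C)` (Artin, Tate). These properties
are the hypothesis `IsDefect`.

For polynomials `f_1, …, f_m` in the variables `z_s`, `s ∈ σ`, over `𝔽_p`: `zeroS f` is the closed
subscheme `f_1 = … = f_m = 0` of the affine space, and `asS p f` is the Artin–Schreier covering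
`w^p - w = ∑ x_l f_l(z)` of the affine space with the coordinates `z_s` and `x_1, …, x_m`. For a
trilinear form `t(x, y, z) = ∑ t_ijl x_i y_j z_l` the polynomials `bq t` are the `c` bilinear forms
`∑ t_ijl x_i y_j`; so `asS p (bq t)` is the covering `w^p - w = t(x, y, z)` of the affine space of
dimension `a + b + c`, a finite étale covering of degree `p`.

**Theorem.** The conjecture of Birch and Swinnerton-Dyer for all abelian varieties over all global fields
of characteristic `p` is equivalent to `δ = 0` for the Artin–Schreier coverings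
`w^p - w = t(x, y, z)` of affine spaces over the prime field `𝔽_p`, for the trilinear forms `t` with at
most four variables `z`; and for every single abelian variety finitely many of these coverings are
enough.
-/

set_option autoImplicit false

open CategoryTheory AlgebraicGeometry MvPolynomial Pool.Agent.Y116.UV Pool.Agent.H89.Dev
  Pool.Agent.H39.Bei Pool.Agent.H95.DC Pool.Agent.H95.Bsd

universe w

namespace Pool.Agent.Results.MP_1d384c_nt.ArtinSchreierCoverings

/-- **Theorem.** Let `p` be a prime number, `Q` a class of smooth proper irreducible schemes over `𝔽_p`,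
and `δ` the additive invariant above.
(1) For every abelian variety `A` over a global field of characteristic `p` there is a finite list of
Artin–Schreier coverings `w^p - w = t(x, y, z)` of affine spaces over `𝔽_p`, with trilinear forms `t` with
at most four variables `z`, such that `δ = 0` for the coverings in the list implies the conjecture for
`A`.
(2) If the surfaces have models in `Q`, the conjecture for all abelian varieties over all global fields
of characteristic `p` is equivalent to `δ = 0` for all these coverings, and it implies `δ = 0` for the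
coverings `w^p - w = ∑ x_l f_l(z)` with at most three variables `z` or with a scheme `f = 0` of dimension
at most two.
(3) For all polynomials `f_1, …, f_m` in `n` variables the Artin–Schreier covering
`w^p - w = ∑ x_l f_l(z)` is smooth over `𝔽_p`, étale, finite and free of rank `p` over the affine space
of dimension `n + m`, and `δ` of it is `(p - 1) L ^ m δ(f = 0)`. -/
theorem result (p : ℕ) [Fact p.Prime] (D : BSDData.{w} p) (Q : Sch (ZMod p) → Prop)
    (hQ : IsClass Q) (hD : D.IsBSD Q) (δ : Sch (ZMod p) → ℤ → ℤ) (hδ : D.IsDefect Q δ) :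
    (∀ A : D.Av, ∃ L : List (Sch (ZMod p)), (∀ Y ∈ L, IsASForm p 4 Y) ∧
      ((∀ Y ∈ L, Zero δ Y) → D.ord A = D.rank A)) ∧
    (ModelsIn Q 2 →
      (D.Conjecture ↔ ∀ Y : Sch (ZMod p), IsASForm p 4 Y → Zero δ Y) ∧
      (D.Conjecture → ∀ (n m : ℕ) (f : Fin m → MvPolynomial (Fin n) (ZMod p)),
        (n ≤ 3 ∨ topologicalKrullDim (zeroS f).left ≤ 2) → Zero δ (asS p f))) ∧
    ∀ (n m : ℕ) (f : Fin m → MvPolynomial (Fin n) (ZMod p)),
      Smooth (asS p f).hom ∧
      Algebra.Etale (MvPolynomial (Fin m) (MvPolynomial (Fin n) (ZMod p))) (ASRing p f) ∧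
      Module.Finite (MvPolynomial (Fin m) (MvPolynomial (Fin n) (ZMod p))) (ASRing p f) ∧
      Module.Free (MvPolynomial (Fin m) (MvPolynomial (Fin n) (ZMod p))) (ASRing p f) ∧
      Module.finrank (MvPolynomial (Fin m) (MvPolynomial (Fin n) (ZMod p))) (ASRing p f) = p ∧
      ∀ c : ℤ, δ (asS p f) c = ((p : ℤ) - 1) * δ (zeroS f) (c - m) := by
  have hp : p.Prime := Fact.out
  have hs : 2 ≤ (Fp (ZMod p) p).card := by rw [card_Fp]; exact hp.two_le
  have hP : ∀ δ : {δ : Sch (ZMod p) → ℤ → ℤ // IsAdditive δ},
      CovP True (fun S : Finset (ZMod p) => 2 ≤ S.card) (Zero δ.1) := fun δ => covP_int δ.2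
  let δ₀ : {δ : Sch (ZMod p) → ℤ → ℤ // IsAdditive δ} := ⟨δ, hδ.additive⟩
  have key : ∀ X : Sch (ZMod p), FT True X → topologicalKrullDim X.left ≤ (2 : ℕ) →
      Lst (fun δ : {δ : Sch (ZMod p) → ℤ → ℤ // IsAdditive δ} => Zero δ.1) (IsASForm p 4) X := by
    intro X hX hd
    refine lst_forms hP (Fp (ZMod p) p) hs 2 (fun a b c t hc => ?_) X hX hd
    have h1 : Algebra.FiniteType (ZMod p) (ASRing p (bq t)) :=
      Algebra.FiniteType.equiv inferInstance (asE (ZMod p) p (bq t))
    have h2 : Lst (fun δ : {δ : Sch (ZMod p) → ℤ → ℤ // IsAdditive δ} => Zero δ.1)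
        (IsASForm p 4) (asS p (bq t)) := lst_self ⟨a, b, c, t, hc, rfl⟩
    exact lst_one (fun i => iso_alg (hP i).toUni (asE (ZMod p) p (bq t)).symm) h2
  refine ⟨fun A => ?_, fun hM => ⟨?_, fun h n m f hn => ?_⟩, fun n m f => ⟨as_smooth p f,
    as_etale (k := ZMod p) p f, (as_free p f).1, (as_free p f).2, as_rank p f, fun c => ?_⟩⟩
  · obtain ⟨V, hV, hd, h1⟩ := bsd_one hD hδ A
    obtain ⟨L, h2, h3⟩ := key V (hQ.ft hV) (le_of_eq hd)
    exact ⟨L, h2, fun h4 => h1 (h3 δ₀ h4)⟩
  · rw [bsd_iff hD hδ, class_dim (hP δ₀) hQ hM, dim_as (hP δ₀) p hs 2]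
    exact ⟨fun h Y ⟨a, b, c, t, hc, hY⟩ => hY ▸ h a b c t hc,
      fun h a b c t hc => h _ ⟨a, b, c, t, hc, rfl⟩⟩
  · rw [bsd_iff hD hδ, class_dim (hP δ₀) hQ hM] at h
    exact (asS_iff (hP δ₀) p hs f).mpr
      (small_cov (hP δ₀) h (Fp (ZMod p) p) hs f (by exact_mod_cast hn)).1
  · rw [additive_as p hδ.additive f c, nsmul_eq_mul, Nat.cast_sub hp.one_le, Nat.cast_one]

end Pool.Agent.Results.MP_1d384c_nt.ArtinSchreierCoverings
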