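import Pool.Agent.H95.DC.Pkg
import Pool.Agent.H39.Pole.Main

/-!
# The analytic Tate conjecture and coverings of affine spaces

Let `k` be a finitely generated perfect field. For a smooth projective variety `X` over `k` and `j ≥ 0`
consider the function `u ↦ u^(rank A^j(X)) L(j + dim_a(k) + u)`, `u > 0`, where `L` is the L-function of
`H^(2j)(X)`, in the group of the functions modulo those with a finite nonzero limit as `u → 0`. The
conjecture for `X` and `j`, including the existence of the order, says that its class `δ(X)(j)` is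
trivial. No continuation of the L-functions is assumed. The Laurent polynomials `∑ δ(X)(j) L^j` are
compatible with blow-ups; so they extend to an additive invariant of all separated schemes of finite
type (Bittner in characteristic zero; Gillet and Soulé for finite fields, since `δ` is defined on the
Chow motives). This is the hypothesis `IsDefect`.

For polynomials `f_1, …, f_m` in the variables `z_s`, `s ∈ σ`: `zeroS f` is the closed subscheme
`f_1 = … = f_m = 0` of the affine space, and `covS S f` is the covering
`∏_{c ∈ S} (w - c) = ∑ x_l f_l(z)` of the affine space with the coordinates `z_s` and `x_1, …, x_m`, for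
a finite subset `S` of `k`. For a trilinear form `t(x, y, z) = ∑ t_ijl x_i y_j z_l` the polynomials
`bq t` are the `c` bilinear forms `∑ t_ijl x_i y_j`; so `covS {α, β} (bq t)` is the double covering
`(w - α)(w - β) = t(x, y, z)` of the affine space of dimension `a + b + c`, for example
`w^2 = 1 + t(x, y, z)`.

`DBuilt d` is the smallest class of schemes which contains all separated schemes of finite type of
dimension at most `d` and all affine spaces, contains the third of `X`, `Z`, `U` with two of them, for
the closed subschemes `Z` of separated schemes `X` of finite type with complement `U`, is closed under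
certain affine bundles (in both directions) and under the division by `𝔾_m`, and contains with `Spec A`
and the closed subscheme `f = 0` of `Spec A` the covering `∏_{c ∈ S} (w - c) = ∑ x_l f_l` of `𝔸^m_A`, and
conversely, if `|S| = 2`, with `Spec A` and the covering the closed subscheme `f = 0`. There is no
restriction on the dimension of the schemes in this class.
-/

set_option autoImplicit false

open CategoryTheory AlgebraicGeometry MvPolynomial Pool.Agent.Y116.UV Pool.Agent.H89.Dev
  Pool.Agent.H39.Bei Pool.Agent.H39.Pole Pool.Agent.H95.DC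

universe w

namespace Pool.Agent.Results.MP_223b32_ag.CoveringsOfAffineSpaces

/-- **Theorem.** Let `k` be a perfect field and `Q` a class of smooth proper irreducible schemes over `k`.
(1) Let the varieties of dimension at most `d` have models in `Q`. For every `X` in `DBuilt d`, of
arbitrary dimension, there is a finite list of varieties `Y` of the class `Q` of dimension at most `d`,
which depends only on `X`, `Q` and `d`, such that the conjecture for the `Y` implies `δ(X) = 0`, and
the conjecture for `X` if `X` is in the class `Q`. The conjecture for all varieties of dimension at most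
`d` of the class `Q` is equivalent to `δ = 0` on `DBuilt d`, and to `δ = 0` for the double coverings
`(w - α)(w - β) = t(x, y, z)` of affine spaces, with fixed `α ≠ β`, for the trilinear forms `t` with at
most `d + 2` variables `z`.
(2) For every `X` of the class `Q` in `DBuilt d` there is a finite list of such double coverings, which
depends only on `X`, `d`, `α` and `β`, such that `δ = 0` for them implies the conjecture for `X`.
(3) Let the curves over `k` have models in `Q`. The conjecture is true for all `X` of the class `Q`, of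
arbitrary dimension, which belong to `DBuilt 1`, and `δ = 0` on `DBuilt 1`. Only the known part `Ends` of
the conjecture is used: the degrees `j = 0` and `j ≥ dim X`.
(4) For all polynomials `f_1, …, f_m` and all finite non-empty sets `S ⊆ k` the invariant of the covering
`∏_{c ∈ S} (w - c) = ∑ x_l f_l(z)` is `(|S| - 1) L ^ m δ(f = 0)`.
(5) For every `d` the class `DBuilt d` contains the coverings `∏_{c ∈ S} (w - c) = t(x, y, z)` with at
most `d + 2` variables `z`, and the coverings `∏_{c ∈ S} (w - c) = ∑ x_l f_l(z)` with at most `d + 1`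
variables `z` or with a scheme `f = 0` of dimension at most `d`. -/
theorem result (k : Type) [Field k] [PerfectField k] (Q : Sch k → Prop) (hQ : IsClass Q) :
    (∀ d : ℕ, ModelsIn Q d →
      (∀ X : Sch k, DBuilt d X → ∃ 𝒴 : List (Sch k),
        (∀ Y ∈ 𝒴, Q Y ∧ topologicalKrullDim Y.left ≤ d) ∧
        ∀ (D : PoleData.{w} k) (δ : Sch k → ℤ → Growth), D.IsDefect Q δ →
          (∀ Y ∈ 𝒴, D.Holds Y) → Zero δ X ∧ (Q X → D.Holds X)) ∧
      ∀ (D : PoleData.{w} k) (δ : Sch k → ℤ → Growth), D.IsDefect Q δ →
        (ForClass Q D.Holds d ↔ ∀ X : Sch k, DBuilt d X → Zero δ X) ∧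
        ∀ S : Finset k, S.card = 2 →
          (ForClass Q D.Holds d ↔ ∀ Y : Sch k, IsDouble S (d + 2) Y → Zero δ Y)) ∧
    (∀ (S : Finset k) (d : ℕ) (X : Sch k), S.card = 2 → Q X → DBuilt d X →
      ∃ L : List (Sch k), (∀ Y ∈ L, IsDouble S (d + 2) Y) ∧
        ∀ (D : PoleData.{w} k) (δ : Sch k → ℤ → Growth), D.IsDefect Q δ →
          (∀ Y ∈ L, Zero δ Y) → D.Holds X) ∧
    (ModelsIn Q 1 → ∀ (D : PoleData.{w} k) (δ : Sch k → ℤ → Growth), D.IsDefect Q δ → D.Ends Q →
      (∀ X : Sch k, Q X → DBuilt 1 X → D.Holds X) ∧ ∀ X : Sch k, DBuilt 1 X → Zero δ X) ∧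
    (∀ (D : PoleData.{w} k) (δ : Sch k → ℤ → Growth), D.IsDefect Q δ → ∀ S : Finset k,
      S.Nonempty → ∀ (n m : ℕ) (f : Fin m → MvPolynomial (Fin n) k) (c : ℤ),
        δ (covS S f) c = (S.card - 1) • δ (zeroS f) (c - m)) ∧
    ∀ (d : ℕ) (S : Finset k), S.Nonempty →
      (∀ (a b c : ℕ) (t : Fin a → Fin b → Fin c → k), c ≤ d + 2 → DBuilt d (covS S (bq t))) ∧
      ∀ (n m : ℕ) (f : Fin m → MvPolynomial (Fin n) k),
        (n ≤ d + 1 ∨ topologicalKrullDim (zeroS f).left ≤ d) → DBuilt d (covS S f) := by
  have hδ : ∀ θ : {p : PoleData.{w} k × (Sch k → ℤ → Growth) // p.1.IsDefect Q p.2},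
      IsAdditive θ.1.2 := fun θ => θ.2.additive
  have hH : ∀ (θ : {p : PoleData.{w} k × (Sch k → ℤ → Growth) // p.1.IsDefect Q p.2}) (X : Sch k),
      Q X → (θ.1.1.Holds X ↔ Zero θ.1.2 X) := fun θ X hX => pole_iff θ.2 hX
  refine ⟨fun d hM => ⟨fun X hX => ?_, fun D δ h => ⟨pkg_built hδ hQ hH ⟨(D, δ), h⟩ hM,
      fun S hS => pkg_iff hδ hQ hH ⟨(D, δ), h⟩ S hS hM⟩⟩,
    fun S d X hS hQX hX => ?_, fun hM D δ h hD => ?_, fun D δ h S hS n m f c =>
      additive_cov h.additive S hS f c, fun d S hS => ⟨fun a b c t h => dbuilt_form S hS t h,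
      fun n m f hn => (dbuilt_small S hS f hn).2⟩⟩
  · obtain ⟨L, h1, h2⟩ := pkg_class hδ hH hQ hM X hX
    exact ⟨L, h1, fun D δ h => h2 ⟨(D, δ), h⟩⟩
  · obtain ⟨L, h1, h2⟩ := pkg_double hδ hH S hS X hX
    exact ⟨L, h1, fun D δ h h3 => (h2 ⟨(D, δ), h⟩ h3).2 hQX⟩
  · have h1 := (pkg_built hδ hQ hH ⟨(D, δ), h⟩ hM).mp (pole_low hQ hD)
    exact ⟨fun X hX hB => (pole_iff h hX).mpr (h1 X hB), h1⟩

end Pool.Agent.Results.MP_223b32_ag.CoveringsOfAffineSpaces
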