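import Pool.Agent.H95.DC.InvAdd

/-!
# Beilinson's conjecture on central values and double coverings of affine spaces

For a smooth projective variety `X` over `ℚ` and `m ≥ 1` let `δ(X)(m) ∈ ℤ × ℂˣ / ℚˣ` be the pair of the
difference between the order of `L(H^(2m-1)(X), s)` at `s = m` and the dimension of `CH^m(X)⁰ ⊗ ℚ`, and
of the quotient of the leading coefficient by `det Π · det ⟨ , ⟩` modulo `ℚˣ`. The parts (iii) and (iv)
of the conjecture for `X` say that `δ(X) = 0`. The invariant `δ` is compatible with blow-ups; so it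
extends, by the theorem of Bittner, to an additive invariant of all separated schemes of finite type
over `ℚ` (this is the hypothesis `IsDefect`): `δ(X) = δ(Z) + δ(U)` for a closed subscheme `Z` of `X` and
its complement `U`, and `δ(E) = L ^ r δ(X)` for the affine bundles `E → X` of rank `r`.

For polynomials `f_1, …, f_m` in the variables `z_s`, `s ∈ σ`: `zeroS f` is the closed subscheme
`f_1 = … = f_m = 0` of the affine space, and `covS S f` is the covering
`∏_{c ∈ S} (w - c) = ∑ x_l f_l(z)` of the affine space with the coordinates `z_s` and `x_1, …, x_m`, for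
a finite subset `S` of `ℚ`. For a trilinear form `t(x, y, z) = ∑ t_ijl x_i y_j z_l` the polynomials
`bq t` are the `c` bilinear forms `∑ t_ijl x_i y_j`; so `covS {1, -1} (bq t)` is the double covering
`w^2 = 1 + t(x, y, z)` of the affine space of dimension `a + b + c`. Likewise `covS {1, -1} (bf ℚ E)` is
the double covering `w^2 = 1 + ∑_l ∑_{(i, j) ∈ E_l} x_i y_j z_l`.
-/

set_option autoImplicit false

open CategoryTheory AlgebraicGeometry MvPolynomial Pool.Agent.Y116.UV Pool.Agent.H89.Dev
  Pool.Agent.H39.Bei Pool.Agent.H95.DC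

universe w

namespace Pool.Agent.Results.MP_29b22a_nt.CoveringsOfAffineSpaces

/-- Some finite list of varieties of the class `Q` of dimension at most `d` has the property: for all
data and all invariants `δ`, the parts (iii) and (iv) of the conjecture for the varieties of the list
imply `δ(X) = 0`. -/
def Finitely (Q : Sch ℚ → Prop) (d : ℕ) (X : Sch ℚ) : Prop :=
  ∃ 𝒴 : List (Sch ℚ), (∀ Y ∈ 𝒴, Q Y ∧ topologicalKrullDim Y.left ≤ d) ∧
    ∀ (D : CentralData.{w}) (δ : Sch ℚ → ℤ → ℤ × Additive Ratio), D.IsDefect Q δ →
      (∀ Y ∈ 𝒴, D.Beilinson Y) → Zero δ X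

/-- **Theorem.** Let `Q` be a class of smooth proper irreducible schemes over `ℚ`, for example all smooth
projective varieties.
(1) For all polynomials `f_1, …, f_m` in `n` variables and all finite non-empty sets `S` of rational
numbers, the covering `∏_{c ∈ S} (w - c) = ∑ x_l f_l(z)` of the affine space of dimension `n + m` is
smooth over `ℚ`, finite and free of rank `|S|` over the affine space, and its invariant is
`(|S| - 1) L ^ m δ(f = 0)`.
(2) Let `d` be such that the varieties of dimension at most `d` have models in `Q`. The parts (iii) and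
(iv) of the conjecture are true for all varieties of dimension at most `d` of the class if and only if
`δ = 0` for the double coverings `(w - α)(w - β) = t(x, y, z)`, with fixed `α ≠ β`, for all trilinear
forms `t` with at most `d + 2` variables `z`.
(3) For each covering `∏_{c ∈ S} (w - c) = t(x, y, z)` with at most `d + 2` variables `z`, and for each
covering `∏_{c ∈ S} (w - c) = ∑ x_l f_l(z)` with at most `d + 1` variables `z` or with a scheme
`f = 0` of dimension at most `d`, there is a finite list of varieties of the class `Q` of dimension at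
most `d` such that the parts (iii) and (iv) for them imply `δ = 0` for the covering.
(4) If all varieties have models in `Q`, the parts (iii) and (iv) of the conjecture for all varieties
of the class are equivalent to `δ = 0` for the double coverings
`(w - α)(w - β) = ∑_l ∑_{(i, j) ∈ E_l} x_i y_j z_l` of affine spaces. -/
theorem result (Q : Sch ℚ → Prop) (hQ : IsClass Q) :
    (∀ S : Finset ℚ, S.Nonempty → ∀ (n m : ℕ) (f : Fin m → MvPolynomial (Fin n) ℚ),
      Smooth (covS S f).hom ∧
      Module.Finite (MvPolynomial (Fin m) (MvPolynomial (Fin n) ℚ)) (Cov S f) ∧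
      Module.Free (MvPolynomial (Fin m) (MvPolynomial (Fin n) ℚ)) (Cov S f) ∧
      Module.finrank (MvPolynomial (Fin m) (MvPolynomial (Fin n) ℚ)) (Cov S f) = S.card ∧
      ∀ (D : CentralData.{w}) (δ : Sch ℚ → ℤ → ℤ × Additive Ratio), D.IsDefect Q δ →
        ∀ c : ℤ, δ (covS S f) c = (S.card - 1) • δ (zeroS f) (c - m)) ∧
    (∀ d : ℕ, ModelsIn Q d →
      (∀ (D : CentralData.{w}) (δ : Sch ℚ → ℤ → ℤ × Additive Ratio), D.IsDefect Q δ →
        ∀ S : Finset ℚ, S.card = 2 → (ForClass Q D.Beilinson d ↔
          ∀ (a b c : ℕ) (t : Fin a → Fin b → Fin c → ℚ), c ≤ d + 2 → Zero δ (covS S (bq t)))) ∧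
      ∀ S : Finset ℚ, S.Nonempty →
        (∀ (a b c : ℕ) (t : Fin a → Fin b → Fin c → ℚ), c ≤ d + 2 →
          Finitely.{w} Q d (covS S (bq t))) ∧
        ∀ (n m : ℕ) (f : Fin m → MvPolynomial (Fin n) ℚ),
          (n ≤ d + 1 ∨ topologicalKrullDim (zeroS f).left ≤ d) → Finitely.{w} Q d (covS S f)) ∧
    ((∀ d, ModelsIn Q d) →
      ∀ (D : CentralData.{w}) (δ : Sch ℚ → ℤ → ℤ × Additive Ratio), D.IsDefect Q δ →
        ∀ S : Finset ℚ, S.card = 2 → ((∀ X, Q X → D.Beilinson X) ↔
          ∀ (a b c : ℕ) (E : Fin c → Finset (Fin a × Fin b)), Zero δ (covS S (bf ℚ E)))) := by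
  refine ⟨fun S hS n m f => ⟨smooth_covS S f, (cov_free f S hS).1, (cov_free f S hS).2,
    cov_rank f S hS, fun D δ hδ c => additive_cov hδ.additive S hS f c⟩, fun d hM =>
    ⟨fun D δ hδ S hS => ?_, fun S hS => ⟨fun a b c t hc => ?_, fun n m f hn => ?_⟩⟩,
    fun hM D δ hδ S hS => ?_⟩
  · have h0 : ForClass Q D.Beilinson d ↔ ForClass Q (Zero δ) d :=
      forall_congr' fun X => forall_congr' fun hX => forall_congr' fun _ => beilinson_iff hδ hX
    exact h0.trans (class_cov (covP_two hδ.additive) hQ S hS hM)
  · have h1 : Pool.Agent.H39.Bei.Fin.{w} Q d (zeroS (bq t)) :=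
      (Pool.Agent.N882.UE.dim_bil bnd_fin.{w} d).mp
        (Pool.Agent.H89.Dev.devissage bnd_fin.{w} hQ hM (fin_class hQ)) a b c t hc
    exact fin_one (fun δ hδ => zero_cov hδ S hS (bq t)) h1
  · have h1 : Pool.Agent.H39.Bei.Fin.{w} Q d (zeroS f) := by
      have h2 := Pool.Agent.H89.Dev.devissage bnd_fin.{w} hQ hM (fin_class hQ)
      rcases hn with hn | hn
      · have h' : ∀ (A : Type) [CommRing A] [Algebra ℚ A] [Algebra.FiniteType ℚ A],
            ringKrullDim A ≤ d → Pool.Agent.H39.Bei.Fin.{w} Q d (aff ℚ A) := by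
          intro A _ _ _ hA
          exact h2 _ (ft_aff True) (by rw [Pool.Agent.Z125.UN.topDim_aff]; exact hA)
        rcases Nat.lt_or_ge d n with h1 | h1
        · obtain rfl : n = d + 1 := by omega
          exact Pool.Agent.Z125.UN.dim_to_closed bnd_fin.{w} h' _
        · apply h'
          refine (ringKrullDim_quotient_le _).trans ?_
          rw [MvPolynomial.ringKrullDim_of_isNoetherianRing, ringKrullDim_eq_zero_of_field]
          simp
          exact_mod_cast h1
      · exact h2 _ (ft_aff True) hn
    exact fin_one (fun δ hδ => zero_cov hδ S hS f) h1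
  · have h0 : (∀ X, Q X → D.Beilinson X) ↔ ∀ X, Q X → Zero δ X :=
      forall_congr' fun X => forall_congr' fun hX => beilinson_iff hδ hX
    have hP := covP_two hδ.additive
    rw [h0, class_all hP hQ hM]
    exact frac_cov hP Pool.Agent.Q193.LT.frac_rat S hS

end Pool.Agent.Results.MP_29b22a_nt.CoveringsOfAffineSpaces
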