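import Pool.Agent.H95.PR.Main
import Pool.Agent.H95.M.Q68_OV_Line

/-!
# `K_4` of one curve of genus one and finitely many coverings of affine spaces

Let `S` be **one** smooth projective curve of genus one over `ℚ`, with Jacobian `E`. The question Q1 for
`S` is whether `Π(α) ∈ ℚ^× · L'(E, -1)` for all nonzero `α` in `H_M^2(S, ℚ(3))` (`PeriodStatement`).

For a smooth projective scheme `Y` over `ℚ` let `M^m(Y) = H_M^{2m-4}(Y, ℚ(m))`,
`D^m(Y) = H_𝒟^{2m-4}(Y_ℝ, ℝ(m))`, and `r : M^m(Y) → D^m(Y)` the regulator; here `M^3(S) = H_M^2(S, ℚ(3))`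
and `D^3(S) = H^1(S(ℂ), ℝ(2))^+`, a real line, and the period of a class is `(2πi)^{-2}` times its integral
over `γ_S^+`. The cycles `c` on `S × Y` of the codimension `m - 2` operate by `c_*` on both, from the index
`3` on `S` to the index `m` on `Y`. Let `V ⊆ D^3(S)` be the rational line of the classes whose period is a
rational multiple of `L'(E, -1)`. Let `A^m(Y) ⊆ D^m(Y)` be the rational subspace generated by the images
`c_* V`, and `B^m(Y) = B_1^m(Y) ⊕ B_2^m(Y)`, where `B_1^m(Y) ⊆ D^m(Y)` is generated by `A^m(Y)` and the
`c_* r(x)`, `x` in `M^3(S)`, and `B_2^m(Y) ⊆ M^m(Y)` by the `c_* x`, `x` in `M^3(S)` with `r(x) = 0`, for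
all cycles `c` as above. They are additive functors of the Chow motive of `Y`, and the map
`A^m(Y) → B^m(Y)` (the inclusion in `B_1^m(Y)`) is bijective if and only if all these `c_* r(x)` are in
`A^m(Y)` and all these `c_* x` with `r(x) = 0` are zero (`LineStable`). For a separated scheme `Z` of finite
type over `ℚ` let `W(Z)` be its weight complex (Gillet, Soulé; `W(Z) = h(Z)` for smooth projective `Z`), and
put `A^{m,i}(Z) = H^i(A^m(W(Z)))`, `B^{m,i}(Z) = H^i(B^m(W(Z)))`. `At C m Z` says that the maps
`A^{m,i}(Z) → B^{m,i}(Z)` are isomorphisms for this `m` and all `i`, `BijAll C Z` that they are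
isomorphisms for all `m` and `i`. The standard properties of these groups are collected in `IsFlatPair`;
that smooth projective schemes generate, in each dimension, is `WeightGen`. In dimension zero all groups
which occur are zero, by the theorem of Borel (`zero`).

Let `CBuilt n` be the smallest class of schemes over `ℚ` which contains all separated schemes of finite
type of dimension at most `n` and is closed under closed-open decompositions (two out of three), certain
affine bundles (in both directions), division by `𝔾_m` and descent along the cyclic coverings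
`s ^ d = u`, and which contains with `Spec A` and the closed subscheme `f = 0` of `Spec A` the covering
`∏_{c ∈ T} (w - c) = ∑ x_l f_l` of `𝔸^m_A`, for finite non-empty sets `T ⊆ ℚ`, and conversely, if
`|T| ≥ 2`, with `Spec A` and the covering the closed subscheme `f = 0`. There is no restriction on the
dimension of the schemes in this class. `cov T t` is the covering `∏_{c ∈ T} (w - c) = t(x, y, z)` of an
affine space, `t` a trilinear form in `a` variables `x`, `b` variables `y` and `c` variables `z`; for
`T = {1, -1}` it is the double covering `w ^ 2 = 1 + t(x, y, z)`.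

**Theorem.** There are finite lists `L`, `L'` of trilinear forms over `ℚ` and a finite list `G` of
tripartite hypergraphs, which depend only on `S`, with the following properties, for all sets `T` of at
least two rational numbers.

(1) Each form in `L` has exactly **three** variables `z`. The question Q1 has a positive answer for `S` if
and only if all the maps `A^{m,i}(Z) → B^{m,i}(Z)` are isomorphisms for the finitely many smooth coverings
`Z : ∏_{c ∈ T} (w - c) = t(x, y, z)`, `t` in `L`.

(2) It has if and only if, for the finitely many coverings given by the forms in `L'` and the **one** index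
`m = c + 3`, `c` the number of the variables `z`, the maps are isomorphisms for all `i`.

(3) It has if and only if all the maps are isomorphisms for the finitely many coverings
`∏_{c ∈ T} (w - c) = ∑_{(i, j, l) ∈ H} x_i y_j z_l`, `H` in `G`.

(4) It has if and only if all the maps are isomorphisms for all schemes in `CBuilt 1`, of any dimension;
and then they are isomorphisms for all separated schemes of finite type over `ℚ`. For all schemes in
`CBuilt 0` they are isomorphisms in any case.

(5) For all `n` the class `CBuilt n` contains the coverings `∏_{c ∈ T} (w - c) = t(x, y, z)` with at most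
`n + 2` variables `z`, and the coverings `∏_{c ∈ T} (w - c) = ∑ x_l f_l(z)` of affine spaces with at most
`n + 1` variables `z_i`, or with a scheme `f = 0` of dimension at most `n`, or with `f_1, …, f_(n+1)` of
degree at most two and all other `f_l` of degree at most one. All these coverings are smooth.
-/

set_option autoImplicit false

open CategoryTheory CategoryTheory.Limits AlgebraicGeometry Pool.Agent.Y116.UV Pool.Agent.Z125.UN
  Pool.Agent.Q193.LT Pool.Agent.Q49.WU Pool.Agent.Q68.OV Pool.Agent.H95.DC Pool.Agent.H95.WC
  Pool.Agent.H95.PR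

universe w u

namespace Pool.Agent.Results.MP_4132b3_nt.CoveringsOfAffineSpaces

/-- A curve `S` of genus one over `ℚ`: `M m Y` and `D m Y` are `H_M^{2m-4}(Y, ℚ(m))` and
`H_𝒟^{2m-4}(Y_ℝ, ℝ(m))`, `Cyc m Y` is the type of the cycles of codimension `m - 2` on `S × Y`, `T` and `P`
are `H_M^2(S, ℚ(3))` and `H^1(S(ℂ), ℝ(2))^+`, `per` is the period `(2πi)^{-2} ∫_{γ_S^+}`, and `lval` is
`L'(E, -1)`, which is not zero. -/
abbrev GenusOneData (S : Sch ℚ) := LineData.{w, u} ℚ S 3

/-- The maps are isomorphisms for the index `m`. -/
def At (C : PairData.{w} ℚ (ℤ × ℤ) ℚ) (m : ℤ) (Z : Sch ℚ) : Prop := BijAt C Prod.fst m Z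

/-- **`K_4` of one curve of genus one and finitely many coverings of affine spaces.** See the explanations
above. -/
theorem result {S : Sch ℚ} (hS : SmoothProj S) (hn : topologicalKrullDim S.left ≤ (1 : ℕ)) :
    (∃ (L L' : List (Form ℚ)) (G : List Pool.Agent.Q68.OV.Graph), (∀ t ∈ L, t.c = 3) ∧
      ∀ (D : GenusOneData.{w, u} S) (C : PairData.{w} ℚ (ℤ × ℤ) ℚ), IsLine D → IsFlatPair C →
        WeightGen C → (∀ Y, SmoothProj Y → ∀ m, (At C m Y ↔ LineStable D m Y)) →
        (zero : ∀ Y : Sch ℚ, SmoothProj Y → topologicalKrullDim Y.left ≤ (0 : ℕ) → BijAll C Y) →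
        (∀ T : Finset ℚ, 2 ≤ T.card →
          (PeriodStatement D ↔ ∀ t ∈ L, BijAll C (cov T t)) ∧
          (PeriodStatement D ↔ ∀ t ∈ L', At C (t.c + 3) (cov T t)) ∧
          (PeriodStatement D ↔ ∀ g ∈ G, BijAll C (covG T g))) ∧
        (PeriodStatement D ↔ ∀ X : Sch ℚ, CBuilt 1 X → BijAll C X) ∧
        (PeriodStatement D → ∀ X : Sch ℚ, FT True X → BijAll C X) ∧
        ∀ X : Sch ℚ, CBuilt 0 X → BijAll C X) ∧
    CovMembers ℚ := by
  refine ⟨?_, covMembers⟩
  obtain ⟨L, L', G, hL, h⟩ := reach_cov.{w, 0, u} hS hn 0 3
  refine ⟨L, L', G, fun t ht => ?_, fun D C hD hC hg bij zero => ?_⟩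
  · have h1 := hL t ht
    omega
  obtain ⟨h3, h4, h5, h6⟩ := h ℚ (lineReach D) C (line_isReach hD) hC hg
    (fun Y hY m => (bij Y hY m).trans (line_closed_iff m Y).symm) zero
  rw [line_holds_iff hD] at h4 h5
  refine ⟨fun T hT => ?_, h4, h5, h6⟩
  obtain ⟨h7, h8, h9⟩ := h3 T hT
  rw [line_holds_iff hD] at h7 h8 h9
  refine ⟨h7, h8.trans ?_, h9 frac_rat⟩
  refine forall_congr' fun t => forall_congr' fun _ => ?_
  rw [add_comm (3 : ℤ)]
  rfl

end Pool.Agent.Results.MP_4132b3_nt.CoveringsOfAffineSpaces
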