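import Pool.Agent.H95.PR.Main
import Pool.Agent.H95.M.Q68_OV_Reg

/-!
# The regulator on `K_2` of curves over `ℚ` and coverings of affine spaces

**All curves.** For a Chow motive `N` over `ℚ` let `H^k_M(N, ℚ(n))_ℤ` be the integral part of the motivic
cohomology (Scholl), and `H^k_D(N_ℝ, ℝ(n))` the real Deligne cohomology. For a separated scheme `X` of
finite type over `ℚ` let `W(X)` be its weight complex (Gillet, Soulé), a complex of Chow motives, with
`W(X) = h(X)` for smooth projective `X`, and for `n, i ∈ ℤ`

`A^{n,i}(X) = H^i(H^{2n-2}_M(W(X), ℚ(n))_ℤ ⊗ ℝ)`, `B^{n,i}(X) = H^i(H^{2n-2}_D(W(X)_ℝ, ℝ(n)))`.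

The regulator induces maps `A^{n,i}(X) → B^{n,i}(X)`; `BijAll C X` says that they are isomorphisms for all
`n` and `i`. For a smooth projective curve `Y` one has `A^{2,0}(Y) = K_2(Y_ℤ) ⊗ ℝ` for a regular model
`Y_ℤ`, `B^{2,0}(Y) = H^1(Y(ℂ), ℝ(1))^+`, and the map is the regulator (`Regulator C Y`: it is an
isomorphism). That it is an isomorphism is the conjunction of part (i) of question Q1 and of part (iii) up
to torsion. All other groups `A^{n,i}(Y)`, `B^{n,i}(Y)` are zero if `Y` is a smooth projective curve (here
one uses that `K_2` of the ring of integers of a number field is finite), and in dimension zero all the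
groups are zero. These known facts enter by the hypotheses `point`, `zero` and `other`.

**One curve.** Let `S` be one smooth projective curve over `ℚ`. For a smooth projective scheme `Y` over `ℚ`
let `M^m(Y) = H_M^{2m-2}(Y, ℚ(m))_ℤ ⊗ ℝ` and `D^m(Y) = H_𝒟^{2m-2}(Y_ℝ, ℝ(m))`, with the regulator
`r : M^m(Y) → D^m(Y)`. The cycles `c` of codimension `m - 1` on `S × Y` operate by
`c_* : M^2(S) → M^m(Y)` and `c_* : D^2(S) → D^m(Y)`. Let `A^m(Y) ⊆ D^m(Y)` be the image of `r`, and
`B^m(Y) = B_1^m(Y) ⊕ B_2^m(Y)`, where `B_1^m(Y) ⊆ D^m(Y)` is the sum of `A^m(Y)` and of the images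
`c_* D^2(S)`, and `B_2^m(Y) ⊆ M^m(Y)` the sum of the images `c_* N` of the kernel `N` of the regulator for
`S`, for all these cycles `c`. They are additive functors of the Chow motive of `Y`, and the map
`A^m(Y) → B^m(Y)` is bijective if and only if `c_* N = 0` and `c_* D^2(S) ⊆ A^m(Y)` for all `c`
(`RegStable`). Put `A^{m,i}(Z) = H^i(A^m(W(Z)))`, `B^{m,i}(Z) = H^i(B^m(W(Z)))`. `At C m Z` says that the
maps `A^{m,i}(Z) → B^{m,i}(Z)` are isomorphisms for this `m` and all `i`.

The standard properties of these groups (long exact sequences of closed-open decompositions, affine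
bundles, `𝔾_m`, flat morphisms with affine spaces as fibres, direct factors for open and closed subschemes
and for the coverings `s ^ d = u`) are collected in `IsFlatPair`; that smooth projective schemes generate,
in each dimension, is `WeightGen`.

Let `CBuilt n` be the smallest class of schemes over `ℚ` which contains all separated schemes of finite
type of dimension at most `n` and is closed under closed-open decompositions (two out of three), certain
affine bundles (in both directions), division by `𝔾_m` and descent along the cyclic coverings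
`s ^ d = u`, and which contains with `Spec A` and the closed subscheme `f = 0` of `Spec A` the covering
`∏_{c ∈ T} (w - c) = ∑ x_l f_l` of `𝔸^m_A`, for finite non-empty sets `T ⊆ ℚ`, and conversely, if
`|T| ≥ 2`, with `Spec A` and the covering the closed subscheme `f = 0`. There is no restriction on the
dimension of the schemes in this class. `cov T t` is the covering `∏_{c ∈ T} (w - c) = t(x, y, z)` of an
affine space, `t` a trilinear form in `a` variables `x`, `b` variables `y` and `c` variables `z`; for
`T = {1, -1}` it is the double covering `w ^ 2 = 1 + t(x, y, z)`.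

**Theorem.** (A) *All curves.* Let `T` be a set of at least two rational numbers.

(A1) The regulator is an isomorphism for all smooth projective curves over `ℚ` if and only if all maps
`A^{n,i} → B^{n,i}` are isomorphisms for the smooth coverings `∏_{c ∈ T} (w - c) = t(x, y, z)` of affine
spaces, for all trilinear forms `t` over `ℚ` with at most **three** variables `z` (the other two blocks are
arbitrary).

(A2) It is an isomorphism for all smooth projective curves if and only if all the maps are isomorphisms
for all schemes in `CBuilt 1`, of any dimension.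

(A3) For the schemes in `CBuilt 0`, of any dimension, all the maps are isomorphisms.

(B) *One curve.* There are finite lists `L`, `L'` of trilinear forms over `ℚ` and a finite list `G` of
tripartite hypergraphs, which depend only on `S`, with the following properties, for all sets `T` of at
least two rational numbers.

(B1) Each form in `L` has exactly **three** variables `z`. The regulator for `S` is an isomorphism if and
only if all the maps `A^{m,i}(Z) → B^{m,i}(Z)` are isomorphisms for the finitely many smooth coverings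
`Z : ∏_{c ∈ T} (w - c) = t(x, y, z)`, `t` in `L`.

(B2) It is an isomorphism if and only if, for the finitely many coverings given by the forms in `L'` and
the **one** index `m = c + 2`, `c` the number of the variables `z`, the maps are isomorphisms for all `i`.

(B3) It is an isomorphism if and only if all the maps are isomorphisms for the finitely many coverings
`∏_{c ∈ T} (w - c) = ∑_{(i, j, l) ∈ H} x_i y_j z_l`, `H` in `G`.

(B4) It is an isomorphism if and only if all the maps are isomorphisms for all schemes in `CBuilt 1`, of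
any dimension; and then they are isomorphisms for all separated schemes of finite type over `ℚ`. For all
schemes in `CBuilt 0` they are isomorphisms in any case.

(C) For all `n` the class `CBuilt n` contains the coverings `∏_{c ∈ T} (w - c) = t(x, y, z)` with at most
`n + 2` variables `z`, and the coverings `∏_{c ∈ T} (w - c) = ∑ x_l f_l(z)` of affine spaces with at most
`n + 1` variables `z_i`, or with a scheme `f = 0` of dimension at most `n`, or with `f_1, …, f_(n+1)` of
degree at most two and all other `f_l` of degree at most one. All these coverings are smooth.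
-/

set_option autoImplicit false

open CategoryTheory CategoryTheory.Limits AlgebraicGeometry Pool.Agent.Y116.UV Pool.Agent.Z125.UN
  Pool.Agent.Q193.LT Pool.Agent.Q49.WU Pool.Agent.Q68.OV Pool.Agent.H95.DC Pool.Agent.H95.WC
  Pool.Agent.H95.PR

universe w u

namespace Pool.Agent.Results.MP_743d1e_nt.CoveringsOfAffineSpaces

/-- The regulator `A^{2,0}(Y) → B^{2,0}(Y)` is an isomorphism. -/
def Regulator (C : PairData.{w} ℚ (ℤ × ℤ) ℝ) (Y : Sch ℚ) : Prop :=
  Function.Bijective (C.ρ (2, 0) Y).hom

/-- The known facts on curves: the maps are isomorphisms for the point and in dimension zero, and for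
smooth projective curves in all degrees but `(2, 0)`. -/
structure CurveFacts (C : PairData.{w} ℚ (ℤ × ℤ) ℝ) : Prop where
  point : BijAll C (aff ℚ ℚ)
  zero : ∀ Y : Sch ℚ, SmoothProj Y → topologicalKrullDim Y.left ≤ (0 : ℕ) → BijAll C Y
  other : ∀ Y : Sch ℚ, SmoothProj Y → topologicalKrullDim Y.left ≤ (1 : ℕ) →
    ∀ j : ℤ × ℤ, j ≠ (2, 0) → Function.Bijective (C.ρ j Y).hom

/-- A smooth projective curve `S` over `ℚ` and the regulators: `M m Y` and `D m Y` are
`H_M^{2m-2}(Y, ℚ(m))_ℤ ⊗ ℝ` and `H_𝒟^{2m-2}(Y_ℝ, ℝ(m))`, `reg` is the regulator, `Cyc m Y` the type of the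
cycles of codimension `m - 1` on `S × Y`. -/
abbrev CurveData (S : Sch ℚ) := RegData.{w, 0, u} ℚ ℝ S 2

/-- The maps are isomorphisms for the index `m`. -/
def At (C : PairData.{w} ℚ (ℤ × ℤ) ℝ) (m : ℤ) (Z : Sch ℚ) : Prop := BijAt C Prod.fst m Z

lemma one_le_of_not_le_zero {x : WithBot ℕ∞} (h : ¬ x ≤ (0 : ℕ)) : ((1 : ℕ) : WithBot ℕ∞) ≤ x := by
  induction x with
  | bot => exact absurd bot_le h
  | coe n =>
    have h1 : ¬ n ≤ 0 := fun h2 => h (by
      have h3 : ((n : ℕ∞) : WithBot ℕ∞) ≤ ((0 : ℕ∞) : WithBot ℕ∞) := WithBot.coe_le_coe.mpr h2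
      exact_mod_cast h3)
    have h2 : (1 : ℕ∞) ≤ n := Order.one_le_iff_ne_zero.mpr fun h3 => h1 h3.le
    have h3 : ((1 : ℕ∞) : WithBot ℕ∞) ≤ ((n : ℕ∞) : WithBot ℕ∞) := WithBot.coe_le_coe.mpr h2
    exact_mod_cast h3

/-- **The regulator on `K_2` of curves over `ℚ` and coverings of affine spaces.** See the explanations
above. -/
theorem result :
    (∀ C : PairData.{w} ℚ (ℤ × ℤ) ℝ, IsFlatPair C → WeightGen C → CurveFacts C →
      (∀ T : Finset ℚ, 2 ≤ T.card →
        ((∀ Y : Sch ℚ, SmoothProj Y → topologicalKrullDim Y.left = (1 : ℕ) → Regulator C Y) ↔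
          FormCoverings T 3 (BijAll C))) ∧
      ((∀ Y : Sch ℚ, SmoothProj Y → topologicalKrullDim Y.left = (1 : ℕ) → Regulator C Y) ↔
        ∀ X : Sch ℚ, CBuilt 1 X → BijAll C X) ∧
      ∀ X : Sch ℚ, CBuilt 0 X → BijAll C X) ∧
    (∀ S : Sch ℚ, SmoothProj S → topologicalKrullDim S.left ≤ (1 : ℕ) →
      ∃ (L L' : List (Form ℚ)) (G : List Pool.Agent.Q68.OV.Graph), (∀ t ∈ L, t.c = 3) ∧
        ∀ (D : CurveData.{w, u} S) (C : PairData.{w} ℚ (ℤ × ℤ) ℝ), IsReg D → IsFlatPair C →
          WeightGen C → (∀ Y, SmoothProj Y → ∀ m, (At C m Y ↔ RegStable D m Y)) →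
          (zero : ∀ Y : Sch ℚ, SmoothProj Y → topologicalKrullDim Y.left ≤ (0 : ℕ) → BijAll C Y) →
          (∀ T : Finset ℚ, 2 ≤ T.card →
            (Iso D ↔ ∀ t ∈ L, BijAll C (cov T t)) ∧
            (Iso D ↔ ∀ t ∈ L', At C (t.c + 2) (cov T t)) ∧
            (Iso D ↔ ∀ g ∈ G, BijAll C (covG T g))) ∧
          (Iso D ↔ ∀ X : Sch ℚ, CBuilt 1 X → BijAll C X) ∧
          (Iso D → ∀ X : Sch ℚ, FT True X → BijAll C X) ∧
          ∀ X : Sch ℚ, CBuilt 0 X → BijAll C X) ∧
    CovMembers ℚ := by
  refine ⟨fun C hC hg hf => ?_, fun S hS hn => ?_, covMembers⟩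
  · have hCC := covC_pair hC hf.point
    have h1 : (∀ Y : Sch ℚ, SmoothProj Y → topologicalKrullDim Y.left = (1 : ℕ) → Regulator C Y) ↔
        ∀ X : Sch ℚ, FT True X → topologicalKrullDim X.left ≤ (1 : ℕ) → BijAll C X := by
      constructor
      · intro h
        refine hg 1 fun Y hY hn j => ?_
        by_cases hj : j = (2, 0)
        · subst hj
          by_cases h0 : topologicalKrullDim Y.left ≤ (0 : ℕ)
          · exact hf.zero Y hY h0 _
          · exact h Y hY (le_antisymm hn (one_le_of_not_le_zero h0))
        · exact hf.other Y hY hn j hj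
      · intro h Y hY hn
        exact h Y hY.ft hn.le (2, 0)
    exact ⟨fun T hT => h1.trans (dim_cov (covP_of_covPN hCC.toCovPN) T hT 1),
      h1.trans ⟨fun h => of_cbuilt hCC h, fun h X hX hn => h X (.dim X hX hn)⟩,
      of_cbuilt hCC (hg 0 hf.zero)⟩
  · obtain ⟨L, L', G, hL, h⟩ := reach_cov.{w, 0, u} hS hn 0 2
    refine ⟨L, L', G, fun t ht => ?_, fun D C hD hC hg bij zero => ?_⟩
    · have h1 := hL t ht
      omega
    obtain ⟨h3, h4, h5, h6⟩ := h ℝ (toReach D) C (isReach hD) hC hg
      (fun Y hY m => (bij Y hY m).trans (closed_iff m Y).symm) zero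
    simp only [holds_iff] at h3 h4 h5
    refine ⟨fun T hT => ?_, h4, h5, h6⟩
    obtain ⟨h7, h8, h9⟩ := h3 T hT
    refine ⟨h7, h8.trans ?_, h9 frac_rat⟩
    refine forall_congr' fun t => forall_congr' fun _ => ?_
    rw [add_comm (2 : ℤ)]
    rfl

end Pool.Agent.Results.MP_743d1e_nt.CoveringsOfAffineSpaces
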