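import Pool.Agent.H95.Fg.Main

/-!
# The conjecture of Birch, Swinnerton-Dyer and Tate and coverings of affine spaces

For a regular scheme `𝒵` of finite type over `ℤ`, of dimension `d`, Tate's invariant
`z(𝒵) = rank H⁰(𝒵, 𝒪*) - rank H¹(𝒵, 𝒪*) - ord_{s=d-1} ζ(𝒵, s)` is a birational invariant. If
`𝒳 → 𝒴` is a model of a curve `X` over the function field `K` of `𝒴`, then `z(𝒳) - z(𝒴)` is the
difference `ord_{s=dim 𝒴} Φ_1(s) - rank Pic⁰_{X/K}(K)`, which is zero by the conjecture. Hence the
conjecture for all curves over number fields and over the fields of transcendence degree one over `ℚ` is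
about the invariants `z` of the models of the curves and the surfaces over `ℚ`.

Let `δ(S) = β(S) L + z(𝒮) L²` for the smooth projective surfaces over `ℚ`, where `β(S)` is the defect
of the conjecture for the Picard variety of `S` over the number field of constants, and `δ(Y) = β(Y) L`
for curves. These polynomials are compatible with blow-ups; so `δ` extends to an additive invariant of
the separated schemes of finite type over `ℚ` (`IsDefect`).

For polynomials `f_1, …, f_m` in the variables `z_s`, `s ∈ σ`, over `ℚ`: `zeroS f` is the closed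
subscheme `f_1 = … = f_m = 0` of the affine space, and `covS S f` is the covering
`∏_{c ∈ S} (w - c) = ∑ x_l f_l(z)` of the affine space with the coordinates `z_s` and `x_1, …, x_m`, for
a finite subset `S` of `ℚ`. For a trilinear form `t(x, y, z) = ∑ t_ijl x_i y_j z_l` the polynomials
`bq t` are the `c` bilinear forms `∑ t_ijl x_i y_j`; so `covS {1, -1} (bq t)` is the double covering
`w^2 = 1 + t(x, y, z)` of the affine space of dimension `a + b + c`.
-/

set_option autoImplicit false

open CategoryTheory AlgebraicGeometry MvPolynomial Pool.Agent.Y116.UV Pool.Agent.H89.Dev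
  Pool.Agent.H39.Bei Pool.Agent.H95.DC Pool.Agent.H95.Fg

universe w

namespace Pool.Agent.H95.Old.MP_9faec4_DoubleCoverings

/-- **Theorem.** Let `Q` be a class of smooth proper irreducible schemes over `ℚ`, `δ` the additive
invariant above, and `S` a finite set of at least two rational numbers, for example `{1, -1}`.
(1) For every curve or surface over a number field, and for every curve over a field of transcendence
degree one over `ℚ`, which come from the class `Q`, there is a finite list of coverings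
`∏_{c ∈ S} (w - c) = t(x, y, z)` of affine spaces over `ℚ`, with trilinear forms `t` with at most four
variables `z`, such that `δ = 0` for the coverings in the list implies the conjecture for the curve or
surface.
(2) If the curves and surfaces have models in `Q`, the conjecture for all these curves and surfaces is
equivalent to `δ = 0` for all these coverings, and it implies `δ = 0` for the coverings
`∏_{c ∈ S} (w - c) = ∑ x_l f_l(z)` with at most three variables `z` or with a scheme `f = 0` of
dimension at most two.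
(3) For all polynomials `f_1, …, f_m` in `n` variables the covering
`∏_{c ∈ S} (w - c) = ∑ x_l f_l(z)` of the affine space of dimension `n + m` is smooth over `ℚ`, finite
and free of rank `|S|` over the affine space, and `δ` of it is `(|S| - 1) L ^ m δ(f = 0)`. -/
theorem result (D : TateData.{w}) (Q : Sch ℚ → Prop) (hQ : IsClass Q) (δ : Sch ℚ → ℤ → ℤ)
    (hδ : D.IsDefect Q δ) (S : Finset ℚ) (hS : 2 ≤ S.card) :
    ((∀ V X, Q V → topologicalKrullDim V.left ≤ 2 → D.IsConst V X →
        ∃ L : List (Sch ℚ), (∀ Y ∈ L, IsFormCover S 4 Y) ∧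
          ((∀ Y ∈ L, Zero δ Y) → D.ord X = D.rank X)) ∧
      ∀ V Y X, Q V → Q Y → topologicalKrullDim V.left = 2 → topologicalKrullDim Y.left = 1 →
        D.Fib V Y X → ∃ L : List (Sch ℚ), (∀ Y ∈ L, IsFormCover S 4 Y) ∧
          ((∀ Y ∈ L, Zero δ Y) → D.ord X = D.rank X)) ∧
    (ModelsIn Q 2 →
      (D.Holds Q ↔ ∀ Y : Sch ℚ, IsFormCover S 4 Y → Zero δ Y) ∧
      (D.Holds Q → ∀ (n m : ℕ) (f : Fin m → MvPolynomial (Fin n) ℚ),
        (n ≤ 3 ∨ topologicalKrullDim (zeroS f).left ≤ 2) → Zero δ (covS S f))) ∧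
    ∀ (n m : ℕ) (f : Fin m → MvPolynomial (Fin n) ℚ),
      Smooth (covS S f).hom ∧
      Module.Finite (MvPolynomial (Fin m) (MvPolynomial (Fin n) ℚ)) (Cov S f) ∧
      Module.Free (MvPolynomial (Fin m) (MvPolynomial (Fin n) ℚ)) (Cov S f) ∧
      Module.finrank (MvPolynomial (Fin m) (MvPolynomial (Fin n) ℚ)) (Cov S f) = S.card ∧
      ∀ c : ℤ, δ (covS S f) c = ((S.card : ℤ) - 1) * δ (zeroS f) (c - m) := by
  have hne : S.Nonempty := Finset.card_pos.mp (by omega)
  have hP : ∀ δ : {δ : Sch ℚ → ℤ → ℤ // IsAdditive δ},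
      CovP True (fun S : Finset ℚ => 2 ≤ S.card) (Zero δ.1) := fun δ => covP_int δ.2
  let δ₀ : {δ : Sch ℚ → ℤ → ℤ // IsAdditive δ} := ⟨δ, hδ.additive⟩
  have key : ∀ X : Sch ℚ, FT True X → topologicalKrullDim X.left ≤ (2 : ℕ) →
      Lst (fun δ : {δ : Sch ℚ → ℤ → ℤ // IsAdditive δ} => Zero δ.1) (IsFormCover S 4) X :=
    fun X hX hd => lst_forms hP S hS 2 (fun a b c t hc => lst_self ⟨a, b, c, t, hc, rfl⟩) X hX hd
  refine ⟨⟨fun V X hV hd hc => ?_, fun V Y X hV hY hd hd' hf => ?_⟩,
    fun hM => ⟨?_, fun h n m f hn => ?_⟩, fun n m f => ⟨smooth_covS S f, (cov_free f S hne).1,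
      (cov_free f S hne).2, cov_rank f S hne, fun c => ?_⟩⟩
  · obtain ⟨L, h2, h3⟩ := key V (hQ.ft hV) hd
    exact ⟨L, h2, fun h4 => const_one hδ hV hd hc (h3 δ₀ h4)⟩
  · obtain ⟨L, h2, h3⟩ := key V (hQ.ft hV) (le_of_eq hd)
    obtain ⟨L', h2', h3'⟩ := key Y (hQ.ft hY) (by rw [hd']; decide)
    refine ⟨L ++ L', fun Z hZ => ?_, fun h4 => fib_one hδ hV hY hd hd' hf
      (h3 δ₀ fun Z hZ => h4 Z (List.mem_append_left _ hZ))
      (h3' δ₀ fun Z hZ => h4 Z (List.mem_append_right _ hZ))⟩
    rcases List.mem_append.mp hZ with h | h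
    · exact h2 Z h
    · exact h2' Z h
  · rw [tate_iff hδ, class_cov (hP δ₀) hQ S hS hM]
    exact ⟨fun h Y ⟨a, b, c, t, hc, hY⟩ => hY ▸ h a b c t hc,
      fun h a b c t hc => h _ ⟨a, b, c, t, hc, rfl⟩⟩
  · rw [tate_iff hδ, class_dim (hP δ₀) hQ hM] at h
    exact (small_cov (hP δ₀) h S hS f (by exact_mod_cast hn)).2
  · rw [additive_cov hδ.additive S hne f c, nsmul_eq_mul, Nat.cast_sub hne.card_pos, Nat.cast_one]

end Pool.Agent.H95.Old.MP_9faec4_DoubleCoverings
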